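import Pool.Agent.AT5.Stmts2

/-!
# Squad AT5, row CYS: the sum of the twisted traces of the powers of `g` is not negative
-/

open scoped BigOperators

set_option linter.unusedSectionVars false

noncomputable section

namespace Pool.Agent.PP.T5.H32

open Pool.Agent.Helper51_AWC Pool.Agent.Helper79_WRA Pool.Agent.PP Pool.Agent.PP.KF
open Pool.Agent.PP.K9 Pool.Agent.PP.K9.H97 Pool.Agent.PP.H75 Pool.Agent.PP.T3 Pool.Agent.PP.T2

attribute [local instance] Ideal.Quotient.field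

/-! ### sums over cyclic groups -/

theorem cyc {Q : Type} [Group Q] [Finite Q] {q : Q} (hq : ∀ x, x ∈ Subgroup.zpowers q)
    (F : Q → ℂ) {n : ℕ} (hn : q ^ n = 1) :
    (Nat.card Q : ℂ) * ∑ j ∈ Finset.range n, F (q ^ j) = (n : ℂ) * ∑ᶠ x, F x := by
  classical
  have := Fintype.ofFinite Q
  have h0 : orderOf q = Nat.card Q := orderOf_eq_card_of_forall_mem_zpowers hq
  have h1 : ∑ j ∈ Finset.range (orderOf q), F (q ^ j) = ∑ᶠ x, F x := by
    rw [finsum_eq_sum_of_fintype, ← IsCyclic.image_range_orderOf hq, Finset.sum_image]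
    intro i hi j hj hij
    exact pow_injOn_Iio_orderOf (Finset.mem_range.1 hi) (Finset.mem_range.1 hj) hij
  obtain ⟨t, rfl⟩ := orderOf_dvd_of_pow_eq_one hn
  have h2 : ∀ t : ℕ, ∑ j ∈ Finset.range (orderOf q * t), F (q ^ j) = (t : ℂ) * ∑ᶠ x, F x := by
    intro t
    induction t with
    | zero => simp
    | succ t ih =>
      rw [mul_add, mul_one, Finset.sum_range_add, ih]
      have h3 : ∀ j, F (q ^ (orderOf q * t + j)) = F (q ^ j) := by
        intro j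
        rw [pow_add, pow_mul, pow_orderOf_eq_one, one_pow, one_mul]
      simp only [h3]
      rw [h1]
      push_cast
      ring
  rw [h2, ← h0]
  push_cast
  ring

/-! ### the twisted trace depends only on the coset -/

section twl

variable {ℓ : ℕ} {G : Type} [Group G] [Finite G] {M : Ideal (integralClosure ℤ ℂ)} [M.IsMaximal]
  {C : Subgroup G} {E : G → FF M}

theorem reg_cj (x c : G) : Reg ℓ (c * x * c⁻¹) ↔ Reg ℓ x := by
  unfold Reg
  have h : orderOf (c * x * c⁻¹) = orderOf x := (MulAut.conj c).orderOf_eq x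
  rw [h]

theorem mem_cj {c : G} (hc : c ∈ C) (x : G) : c * x * c⁻¹ ∈ C ↔ x ∈ C := by
  constructor
  · intro h
    have h1 := C.mul_mem (C.mul_mem (C.inv_mem hc) h) hc
    have e : c⁻¹ * (c * x * c⁻¹) * c = x := by group
    rwa [e] at h1
  · intro h
    exact C.mul_mem (C.mul_mem hc h) (C.inv_mem hc)

theorem ext0_cj {κ : C → ℂ} (hκ : κ ∈ Irr C) {c : G} (hc : c ∈ C) (x : G) :
    H75.ext0 C κ (c * x * c⁻¹) = H75.ext0 C κ x := by
  unfold H75.ext0
  by_cases hx : x ∈ C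
  · rw [dif_pos ((mem_cj hc x).2 hx), dif_pos hx]
    exact irr_conj hκ ⟨x, hx⟩ ⟨c, hc⟩
  · rw [dif_neg (fun h => hx ((mem_cj hc x).1 h)), dif_neg hx]

theorem kr_right {c : G} (hc : c ∈ C) (s s' : G) :
    kr M C E s (c * s' * c⁻¹) = kr M C E s s' := by
  unfold kr
  refine finsum_congr fun κ => finsum_congr fun hκ => ?_
  rw [ext0_cj hκ.1 hc]

theorem tw_mul_right {c : G} (hc : c ∈ C) (h : G) : tw M ℓ C E (h * c) = tw M ℓ C E h := by
  unfold tw
  congr 1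
  rw [← finsum_comp_equiv (MulAut.conj c).toEquiv
    (f := fun s => ∑ᶠ (_ : s ∈ C ∧ Reg ℓ s), kr M C E (h * s * h⁻¹) s)]
  refine finsum_congr fun s => ?_
  have e0 : (MulAut.conj c).toEquiv s = c * s * c⁻¹ := rfl
  rw [e0]
  have e1 : (c * s * c⁻¹ ∈ C ∧ Reg ℓ (c * s * c⁻¹)) = (s ∈ C ∧ Reg ℓ s) := by
    rw [mem_cj hc, reg_cj]
  rw [e1]
  refine finsum_congr fun _ => ?_
  rw [kr_right hc]
  congr 1
  group

end twl

/-! ### the group generated by `C` and `g` -/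

section grp

variable {G : Type} [Group G] {C : Subgroup G} {g : G}

/-- the group generated by `C` and the element `g` of the normaliser -/
def AA (C : Subgroup G) (g : G) (hg : g ∈ Subgroup.normalizer (C : Set G)) : Subgroup G where
  carrier := {x | ∃ k : ℤ, x * (g ^ k)⁻¹ ∈ C}
  one_mem' := ⟨0, by simp⟩
  mul_mem' := by
    rintro x y ⟨k, hk⟩ ⟨l, hl⟩
    refine ⟨k + l, ?_⟩
    have h1 : g ^ k ∈ Subgroup.normalizer (C : Set G) := Subgroup.zpow_mem _ hg k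
    have h2 := (Subgroup.mem_normalizer_iff.1 h1 (y * (g ^ l)⁻¹)).1 hl
    have h3 := C.mul_mem hk h2
    have e : x * (g ^ k)⁻¹ * (g ^ k * (y * (g ^ l)⁻¹) * (g ^ k)⁻¹) = x * y * (g ^ (k + l))⁻¹ := by
      rw [zpow_add, mul_inv_rev]
      group
    rwa [e] at h3
  inv_mem' := by
    rintro x ⟨k, hk⟩
    refine ⟨-k, ?_⟩
    have h1 : (g ^ k)⁻¹ ∈ Subgroup.normalizer (C : Set G) :=
      Subgroup.inv_mem _ (Subgroup.zpow_mem _ hg k)
    have h2 := (Subgroup.mem_normalizer_iff.1 h1 _).1 (C.inv_mem hk)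
    have e : (g ^ k)⁻¹ * (x * (g ^ k)⁻¹)⁻¹ * ((g ^ k)⁻¹)⁻¹ = x⁻¹ * (g ^ (-k))⁻¹ := by
      group
    rwa [e] at h2

theorem mem_AA {hg : g ∈ Subgroup.normalizer (C : Set G)} {x : G} :
    x ∈ AA C g hg ↔ ∃ k : ℤ, x * (g ^ k)⁻¹ ∈ C := Iff.rfl

theorem le_AA (hg : g ∈ Subgroup.normalizer (C : Set G)) : C ≤ AA C g hg := by
  intro c hc
  exact ⟨0, by simpa using hc⟩

theorem g_mem_AA (hg : g ∈ Subgroup.normalizer (C : Set G)) : g ∈ AA C g hg :=
  ⟨1, by simp⟩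

theorem AA_le (hg : g ∈ Subgroup.normalizer (C : Set G)) {B : Subgroup G} (hC : C ≤ B)
    (hB : g ∈ B) : AA C g hg ≤ B := by
  rintro x ⟨k, hk⟩
  have h1 := B.mul_mem (hC hk) (B.zpow_mem hB k)
  have e : x * (g ^ k)⁻¹ * g ^ k = x := by group
  rwa [e] at h1

theorem AA_le_normalizer (hg : g ∈ Subgroup.normalizer (C : Set G)) :
    AA C g hg ≤ Subgroup.normalizer (C : Set G) := AA_le hg Subgroup.le_normalizer hg

/-- `A / C` is cyclic -/
theorem AA_cyclic (hg : g ∈ Subgroup.normalizer (C : Set G))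
    [(C.subgroupOf (AA C g hg)).Normal] (x : AA C g hg ⧸ C.subgroupOf (AA C g hg)) :
    x ∈ Subgroup.zpowers
      (QuotientGroup.mk (⟨g⁻¹, (AA C g hg).inv_mem (g_mem_AA hg)⟩ : AA C g hg) :
        AA C g hg ⧸ C.subgroupOf (AA C g hg)) := by
  induction x using QuotientGroup.induction_on with
  | H a =>
    obtain ⟨k, hk⟩ := a.2
    refine ⟨-k, ?_⟩
    show (QuotientGroup.mk (⟨g⁻¹, (AA C g hg).inv_mem (g_mem_AA hg)⟩ : AA C g hg) :
        AA C g hg ⧸ C.subgroupOf (AA C g hg)) ^ (-k) = QuotientGroup.mk a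
    rw [← QuotientGroup.mk_zpow, QuotientGroup.eq, Subgroup.mem_subgroupOf]
    have h1 : (g ^ k)⁻¹ ∈ Subgroup.normalizer (C : Set G) :=
      Subgroup.inv_mem _ (Subgroup.zpow_mem _ hg k)
    have h2 := (Subgroup.mem_normalizer_iff.1 h1 _).1 hk
    have e : (((⟨g⁻¹, (AA C g hg).inv_mem (g_mem_AA hg)⟩ : AA C g hg) ^ (-k))⁻¹ * a : AA C g hg) =
        ((g ^ k)⁻¹ * ((a : G) * (g ^ k)⁻¹) * ((g ^ k)⁻¹)⁻¹ : G) := by
      rw [Subgroup.coe_mul, Subgroup.coe_inv, Subgroup.coe_zpow]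
      show ((g⁻¹) ^ (-k))⁻¹ * (a : G) = _
      rw [inv_zpow', neg_neg]
      group
    rw [e]
    exact h2

/-- the group generated by `A₁ = ⟨C, g ^ ℓ⟩` and `g` is `A` -/
theorem AA_AA (hg : g ∈ Subgroup.normalizer (C : Set G)) {n : ℕ}
    (hn : g ^ n ∈ Subgroup.normalizer (C : Set G))
    (hg' : g ∈ Subgroup.normalizer (AA C (g ^ n) hn : Set G)) :
    AA (AA C (g ^ n) hn) g hg' = AA C g hg := by
  apply le_antisymm
  · exact AA_le _ (AA_le _ (le_AA hg) ((AA C g hg).pow_mem (g_mem_AA hg) n)) (g_mem_AA hg)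
  · exact AA_le _ ((le_AA hn).trans (le_AA hg')) (g_mem_AA hg')

theorem g_norm (hg : g ∈ Subgroup.normalizer (C : Set G)) {n : ℕ}
    (hn : g ^ n ∈ Subgroup.normalizer (C : Set G)) :
    g ∈ Subgroup.normalizer (AA C (g ^ n) hn : Set G) := by
  rw [Subgroup.mem_normalizer_iff]
  intro x
  have key : ∀ k : ℤ, g * x * g⁻¹ * ((g ^ n) ^ k)⁻¹ = g * (x * ((g ^ n) ^ k)⁻¹) * g⁻¹ := by
    intro k
    have hcomm : Commute g ((g ^ n) ^ k)⁻¹ :=
      (((Commute.refl g).pow_right n).zpow_right k).inv_right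
    have h2 : g⁻¹ * ((g ^ n) ^ k)⁻¹ = ((g ^ n) ^ k)⁻¹ * g⁻¹ := hcomm.inv_left.eq
    rw [mul_assoc (g * x), h2]
    group
  constructor
  · rintro ⟨k, hk⟩
    exact ⟨k, by rw [key]; exact (Subgroup.mem_normalizer_iff.1 hg _).1 hk⟩
  · rintro ⟨k, hk⟩
    refine ⟨k, ?_⟩
    rw [key] at hk
    exact (Subgroup.mem_normalizer_iff.1 hg _).2 hk

end grp

/-! ### the block on `A` -/

section blk

variable {F G : Type} [Field F] [Group G] [Finite G] {C : Subgroup G} {E : G → F} {g : G}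

theorem cj_zpow_eq (hE : cj g E = E) (k : ℤ) : cj (g ^ k) E = E := by
  have h1 : ∀ n : ℕ, cj (g ^ n) E = E := by
    intro n
    induction n with
    | zero => ext x; simp [H75.cj]
    | succ n ih =>
      have : cj (g ^ (n + 1)) E = cj (g ^ n) (cj g E) := by
        ext x
        show E _ = E _
        congr 1
        rw [pow_succ]
        group
      rw [this, hE, ih]
  cases k with
  | ofNat n => simpa using h1 n
  | negSucc n =>
    have h2 := congrArg (cj (g ^ (n + 1))⁻¹) (h1 (n + 1))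
    rw [H75.cj_inv_cj] at h2
    rw [zpow_negSucc]
    exact h2.symm

theorem cj_AA (hI : Ix C E) (hg : g ∈ Subgroup.normalizer (C : Set G)) (hE : cj g E = E)
    {y : G} (hy : y ∈ AA C g hg) (x : G) : E (y * x * y⁻¹) = E x := by
  obtain ⟨k, hk⟩ := hy
  have h1 := (cj_eq_iff _ _).1 (hI.inv hk)
  have h2 := (cj_eq_iff _ _).1 (cj_zpow_eq hE k)
  rw [← h2 x, ← h1 (g ^ k * x * (g ^ k)⁻¹)]
  congr 1
  group

theorem ix_AA (hI : Ix C E) (hg : g ∈ Subgroup.normalizer (C : Set G)) (hE : cj g E = E) :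
    Ix (AA C g hg) E := by
  have hs : ∀ x, x ∉ AA C g hg → E x = 0 := fun x hx => hI.supp x fun h => hx (le_AA hg h)
  refine ⟨hs, ?_, ?_⟩
  · intro x y
    exact cj_AA hI hg hE y.2 (x : G)
  · rw [← mulF_res (AA C g hg) E hs, hI.mul]

end blk

section main

variable {ℓ : ℕ} [Fact ℓ.Prime] {G : Type} [Group G] [Finite G]
  {M : Ideal (integralClosure ℤ ℂ)} [M.IsMaximal] {C : Subgroup G} {E : G → FF M} {g : G}

theorem relIndex_AA (hg : g ∈ Subgroup.normalizer (C : Set G)) {n : ℕ} (hn : g ^ n ∈ C) :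
    C.relIndex (AA C g hg) ∣ n := by
  have hN : (C.subgroupOf (AA C g hg)).Normal :=
    Subgroup.normal_subgroupOf_of_le_normalizer (AA_le_normalizer hg)
  have h1 := orderOf_eq_card_of_forall_mem_zpowers (AA_cyclic hg)
  have h2 : C.relIndex (AA C g hg) = Nat.card (AA C g hg ⧸ C.subgroupOf (AA C g hg)) := rfl
  rw [h2, ← h1]
  apply orderOf_dvd_of_pow_eq_one
  rw [← QuotientGroup.mk_pow, QuotientGroup.eq_one_iff, Subgroup.mem_subgroupOf]
  show ((⟨g⁻¹, _⟩ : AA C g hg) ^ n : AA C g hg).1 ∈ C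
  rw [Subgroup.coe_pow]
  show (g⁻¹) ^ n ∈ C
  rw [inv_pow]
  exact C.inv_mem hn

/-- the sum over all powers -/
theorem sumAll (hT : TwtStmt) (hM : (ℓ : integralClosure ℤ ℂ) ∈ M) (hI : Ix C E)
    (hg : g ∈ Subgroup.normalizer (C : Set G)) (hE : cj g E = E) {r : ℕ} (hr : g ^ ℓ ^ r ∈ C) :
    ∑ j ∈ Finset.range (ℓ ^ r), tw M ℓ C E (g ^ j)⁻¹ =
      ((ℓ ^ r : ℕ) : ℂ) * (ln (fun t : AA C g hg => E t) : ℂ) := by
  classical
  have hp : ℓ.Prime := Fact.out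
  have hN : (C.subgroupOf (AA C g hg)).Normal :=
    Subgroup.normal_subgroupOf_of_le_normalizer (AA_le_normalizer hg)
  obtain ⟨n, -, hn⟩ := (Nat.dvd_prime_pow hp).1 (relIndex_AA hg hr)
  have h1 := hT ℓ M hM G C (AA C g hg) (le_AA hg) (AA_le_normalizer hg) ⟨n, hn⟩ E (ix_AA hI hg hE)
    hI.supp
  have hq : ((QuotientGroup.mk (⟨g⁻¹, (AA C g hg).inv_mem (g_mem_AA hg)⟩ : AA C g hg) :
        AA C g hg ⧸ C.subgroupOf (AA C g hg))) ^ ℓ ^ r = 1 := by
    rw [← QuotientGroup.mk_pow, QuotientGroup.eq_one_iff, Subgroup.mem_subgroupOf]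
    show ((⟨g⁻¹, _⟩ : AA C g hg) ^ ℓ ^ r : AA C g hg).1 ∈ C
    rw [Subgroup.coe_pow]
    show (g⁻¹) ^ ℓ ^ r ∈ C
    rw [inv_pow]
    exact C.inv_mem hr
  have h2 := cyc (AA_cyclic hg)
    (fun h : AA C g hg ⧸ C.subgroupOf (AA C g hg) => tw M ℓ C E ((h.out : AA C g hg) : G)) hq
  have h3 : C.relIndex (AA C g hg) = Nat.card (AA C g hg ⧸ C.subgroupOf (AA C g hg)) := rfl
  rw [← h1, ← h3] at h2
  have h0 : ((C.relIndex (AA C g hg) : ℕ) : ℂ) ≠ 0 := by
    rw [hn]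
    exact_mod_cast pow_ne_zero n hp.ne_zero
  have h4 : ∀ j : ℕ, tw M ℓ C E (((((QuotientGroup.mk
      (⟨g⁻¹, (AA C g hg).inv_mem (g_mem_AA hg)⟩ : AA C g hg) :
        AA C g hg ⧸ C.subgroupOf (AA C g hg))) ^ j).out : AA C g hg) : G) =
        tw M ℓ C E (g ^ j)⁻¹ := by
    intro j
    rw [← QuotientGroup.mk_pow]
    obtain ⟨c, hc⟩ := QuotientGroup.mk_out_eq_mul (C.subgroupOf (AA C g hg))
      ((⟨g⁻¹, (AA C g hg).inv_mem (g_mem_AA hg)⟩ : AA C g hg) ^ j)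
    rw [hc, Subgroup.coe_mul, Subgroup.coe_pow]
    have e : ((⟨g⁻¹, (AA C g hg).inv_mem (g_mem_AA hg)⟩ : AA C g hg) : G) = g⁻¹ := rfl
    rw [e, inv_pow]
    exact tw_mul_right (Subgroup.mem_subgroupOf.1 c.2) _
  simp only [h4] at h2
  have h5 : ((C.relIndex (AA C g hg) : ℕ) : ℂ) * ∑ j ∈ Finset.range (ℓ ^ r),
      tw M ℓ C E (g ^ j)⁻¹ = ((C.relIndex (AA C g hg) : ℕ) : ℂ) *
      (((ℓ ^ r : ℕ) : ℂ) * (ln (fun t : AA C g hg => E t) : ℂ)) := by
    rw [h2]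
    ring
  exact mul_left_cancel₀ h0 h5

end main

/-- CYS -/
theorem cys (hT : TwtStmt) (hN : NclStmt) : CysStmt := by
  classical
  intro ℓ hℓ M hM1 hM G _ _ C E hI g hg hE r hr hgr
  have hp : ℓ.Prime := Fact.out
  have hF : GoodF ℓ (FF M) := H50.fld ℓ Fact.out M hM
  obtain ⟨r, rfl⟩ := Nat.exists_eq_succ_of_ne_zero hr.ne'
  have hgn : g ^ ℓ ∈ Subgroup.normalizer (C : Set G) := Subgroup.pow_mem _ hg ℓ
  have hEn : cj (g ^ ℓ) E = E := by
    have := cj_zpow_eq hE (ℓ : ℤ)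
    rwa [zpow_natCast] at this
  have hg1 := g_norm hg hgn
  have hgr' : (g ^ ℓ) ^ ℓ ^ r ∈ C := by
    rw [← pow_mul, ← pow_succ']
    exact hgr
  have h1 := sumAll hT hM hI hg hE hgr
  have h2 := sumAll hT hM hI hgn hEn hgr'
  -- the multiples of `ℓ`
  have h3 : ∑ j ∈ (Finset.range (ℓ ^ (r + 1))).filter (fun j => ℓ ∣ j), tw M ℓ C E (g ^ j)⁻¹ =
      ∑ j ∈ Finset.range (ℓ ^ r), tw M ℓ C E ((g ^ ℓ) ^ j)⁻¹ := by
    symm
    apply Finset.sum_bij (fun j _ => ℓ * j)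
    · intro j hj
      rw [Finset.mem_filter, Finset.mem_range]
      refine ⟨?_, Dvd.intro j rfl⟩
      rw [pow_succ']
      exact Nat.mul_lt_mul_of_pos_left (Finset.mem_range.1 hj) hp.pos
    · intro i _ j _ hij
      exact Nat.eq_of_mul_eq_mul_left hp.pos hij
    · intro j hj
      rw [Finset.mem_filter, Finset.mem_range] at hj
      obtain ⟨hj, i, rfl⟩ := hj
      refine ⟨i, ?_, rfl⟩
      rw [pow_succ'] at hj
      exact Finset.mem_range.2 (Nat.lt_of_mul_lt_mul_left hj)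
    · intro j _
      rw [← pow_mul]
  have h4 := Finset.sum_filter_add_sum_filter_not (Finset.range (ℓ ^ (r + 1))) (fun j => ℓ ∣ j)
    (fun j => tw M ℓ C E (g ^ j)⁻¹)
  rw [h3, h2, h1] at h4
  refine ⟨((ℓ ^ (r + 1) : ℕ) : ℝ) * (ln (fun t : AA C g hg => E t) : ℝ) -
    ((ℓ ^ r : ℕ) : ℝ) * (ln (fun t : AA C (g ^ ℓ) hgn => E t) : ℝ), ?_, ?_⟩
  · -- the index of `A₁` in `A`
    have h5 : (AA C (g ^ ℓ) hgn).relIndex (AA C g hg) ∣ ℓ := by
      have := relIndex_AA hg1 (g_mem_AA hgn)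
      rwa [AA_AA hg hgn hg1] at this
    have hle : AA C (g ^ ℓ) hgn ≤ AA C g hg :=
      AA_le hgn (le_AA hg) ((AA C g hg).pow_mem (g_mem_AA hg) ℓ)
    have h6 : ln (fun t : AA C (g ^ ℓ) hgn => E t) ≤ ℓ * ln (fun t : AA C g hg => E t) := by
      rcases (Nat.dvd_prime hp).1 h5 with h | h
      · have h7 : AA C g hg ≤ AA C (g ^ ℓ) hgn := Subgroup.relIndex_eq_one.1 h
        have h8 : AA C (g ^ ℓ) hgn = AA C g hg := le_antisymm hle h7
        rw [h8]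
        exact Nat.le_mul_of_pos_left _ hp.pos
      · refine hN ℓ (FF M) hF G (AA C (g ^ ℓ) hgn) (AA C g hg) hle ?_ h E (ix_AA hI hg hE) ?_
        · exact AA_le hg ((le_AA hgn).trans Subgroup.le_normalizer) hg1
        · intro x hx
          exact hI.supp x fun h => hx (le_AA hgn h)
    have h7 : (ln (fun t : AA C (g ^ ℓ) hgn => E t) : ℝ) ≤
        ℓ * (ln (fun t : AA C g hg => E t) : ℝ) := by exact_mod_cast h6
    have h8 : (0 : ℝ) ≤ ((ℓ ^ r : ℕ) : ℝ) := Nat.cast_nonneg _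
    have h9 := mul_le_mul_of_nonneg_left h7 h8
    have e : ((ℓ ^ (r + 1) : ℕ) : ℝ) = ((ℓ ^ r : ℕ) : ℝ) * ℓ := by push_cast; ring
    rw [e, mul_assoc]
    linarith
  · rw [eq_sub_of_add_eq' h4, Nat.succ_eq_add_one]
    push_cast
    ring

end Pool.Agent.PP.T5.H32
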