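import Pool.Agent.AT5.Stmts2
import Pool.Agent.Helper94_PP.LemQ

/-!
# Squad AT5, row ZIM: products and conjugates of virtual characters
-/

open scoped BigOperators
open Module

set_option linter.unusedSectionVars false

noncomputable section

namespace Pool.Agent.PP.T5.H32

open Pool.Agent.Helper51_AWC Pool.Agent.Helper79_WRA Pool.Agent.PP Pool.Agent.PP.KF
open Pool.Agent.PP.K9

variable {H : Type} [Group H] [Finite H]

/-- the character of a finite dimensional representation is a virtual character -/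
theorem char_mem_ZI {V : Type*} [AddCommGroup V] [Module ℂ V] [FiniteDimensional ℂ V]
    (ρ : Representation ℂ H V) : ρ.character ∈ ZI H := by
  classical
  have := Fintype.ofFinite H
  have hc : (Nat.card H : ℂ) ≠ 0 := by exact_mod_cast Nat.card_pos.ne'
  have hc' : (Fintype.card H : ℂ) ≠ 0 := by exact_mod_cast Fintype.card_ne_zero
  have := invertibleOfNonzero hc
  set S := (irr_finite' (G := H)).toFinset with hS
  have hmem : ∀ χ, χ ∈ S ↔ χ ∈ Irr H := fun χ => Set.Finite.mem_toFinset _
  set c : (H → ℂ) → ℂ := fun ψ => (Nat.card H : ℂ)⁻¹ * ∑ g : H, ρ.character g * ψ g⁻¹ with hcd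
  have hint : ∀ ψ ∈ Irr H, ∃ m : ℕ, c ψ = m := by
    rintro ψ ⟨n, σ, hσ, rfl⟩
    exact ⟨_, Representation.card_inv_mul_sum_char_mul_char_eq_finrank σ ρ⟩
  have key : (fun g => ρ.character g - ∑ ψ ∈ S, c ψ * ψ g) = 0 := by
    apply irr_complete'
    · intro g h
      rw [ρ.char_conj]
      congr 1
      refine Finset.sum_congr rfl fun ψ hψ => ?_
      rw [irr_conj ((hmem ψ).1 hψ)]
    · intro φ hφ
      simp only [sub_mul, Finset.sum_sub_distrib, Finset.sum_mul]
      rw [Finset.sum_comm, Finset.sum_eq_single_of_mem φ ((hmem φ).2 hφ)]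
      · simp_rw [mul_assoc]
        rw [← Finset.mul_sum, irr_orth_self hφ, hcd]
        simp only
        rw [mul_assoc, mul_comm (∑ g : H, ρ.character g * φ g⁻¹), ← mul_assoc,
          ← Nat.card_eq_fintype_card, inv_mul_cancel₀ hc, one_mul, sub_self]
      · intro ψ hψ hne
        simp_rw [mul_assoc]
        rw [← Finset.mul_sum, irr_orth_ne ((hmem ψ).1 hψ) hφ hne, mul_zero]
  have h2 : ρ.character = ∑ ψ ∈ S, c ψ • ψ := by
    ext g
    have := congrFun key g
    simp only [Pi.zero_apply] at this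
    rw [sub_eq_zero] at this
    rw [this, Finset.sum_apply]
    rfl
  rw [h2]
  refine AddSubgroup.sum_mem _ fun ψ hψ => ?_
  obtain ⟨m, hm⟩ := hint ψ ((hmem ψ).1 hψ)
  have h3 : c ψ • ψ = m • ψ := by
    rw [hm]
    ext g
    simp
  rw [h3]
  exact AddSubgroup.nsmul_mem _ (AddSubgroup.subset_closure ((hmem ψ).1 hψ)) m

theorem mul_mem_ZI {f h : H → ℂ} (hf : f ∈ ZI H) (hh : h ∈ ZI H) :
    (fun x => f x * h x) ∈ ZI H := by
  have hirr : ∀ χ ∈ Irr H, ∀ ψ ∈ Irr H, (fun x => χ x * ψ x) ∈ ZI H := by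
    rintro χ ⟨n, ρ, _, rfl⟩ ψ ⟨m, σ, _, rfl⟩
    have h1 := char_mem_ZI (ρ.tprod σ)
    rw [Representation.char_tensor] at h1
    exact h1
  refine AddSubgroup.closure_induction (p := fun f _ => (fun x => f x * h x) ∈ ZI H)
    (fun χ hχ => ?_) ?_ (fun a b _ _ ha hb => ?_) (fun a _ ha => ?_) hf
  · refine AddSubgroup.closure_induction (p := fun h _ => (fun x => χ x * h x) ∈ ZI H)
      (fun ψ hψ => hirr χ hχ ψ hψ) ?_ (fun a b _ _ ha hb => ?_) (fun a _ ha => ?_) hh
    · have : (fun x => χ x * (0 : H → ℂ) x) = 0 := by ext x; simp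
      rw [this]; exact AddSubgroup.zero_mem _
    · have : (fun x => χ x * (a + b) x) = (fun x => χ x * a x) + fun x => χ x * b x := by
        ext x; simp [mul_add]
      rw [this]; exact AddSubgroup.add_mem _ ha hb
    · have : (fun x => χ x * (-a) x) = -fun x => χ x * a x := by
        ext x; simp
      rw [this]; exact AddSubgroup.neg_mem _ ha
  · have : (fun x => (0 : H → ℂ) x * h x) = 0 := by ext x; simp
    rw [this]; exact AddSubgroup.zero_mem _
  · have : (fun x => (a + b) x * h x) = (fun x => a x * h x) + fun x => b x * h x := by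
      ext x; simp [add_mul]
    rw [this]; exact AddSubgroup.add_mem _ ha hb
  · have : (fun x => (-a) x * h x) = -fun x => a x * h x := by
      ext x; simp
    rw [this]; exact AddSubgroup.neg_mem _ ha

theorem conj_mem_ZI {f : H → ℂ} (hf : f ∈ ZI H) : (fun x => starRingEnd ℂ (f x)) ∈ ZI H := by
  refine AddSubgroup.closure_induction (p := fun f _ => (fun x => starRingEnd ℂ (f x)) ∈ ZI H)
    (fun χ hχ => ?_) ?_ (fun a b _ _ ha hb => ?_) (fun a _ ha => ?_) hf
  · have h1 : (fun x => starRingEnd ℂ (χ x)) = fun x => χ x⁻¹ :=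
      funext fun x => Pool.Agent.PP.H94.irr_star hχ x
    rw [h1]
    obtain ⟨n, ρ, _, rfl⟩ := hχ
    have h2 := char_mem_ZI ρ.dual
    have h3 : ρ.dual.character = fun x => ρ.character x⁻¹ := funext fun x => ρ.char_dual x
    rw [h3] at h2
    exact h2
  · have : (fun x => starRingEnd ℂ ((0 : H → ℂ) x)) = 0 := by ext x; simp
    rw [this]; exact AddSubgroup.zero_mem _
  · have : (fun x => starRingEnd ℂ ((a + b) x)) =
        (fun x => starRingEnd ℂ (a x)) + fun x => starRingEnd ℂ (b x) := by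
      ext x; simp
    rw [this]; exact AddSubgroup.add_mem _ ha hb
  · have : (fun x => starRingEnd ℂ ((-a) x)) = -fun x => starRingEnd ℂ (a x) := by
      ext x; simp
    rw [this]; exact AddSubgroup.neg_mem _ ha

/-- ZIM -/
theorem zim : ZimStmt := fun _ _ _ _ hf _ hh => ⟨mul_mem_ZI hf hh, conj_mem_ZI hf⟩

end Pool.Agent.PP.T5.H32
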